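import Pool.Agent.Helper98_AT3.Asm3
import Pool.Agent.Helper23_AT3.RTC
import Pool.Agent.Helper32_ASO.HLNK
import Pool.Agent.Helper32_ASO.HIXE
import Pool.Agent.Helper63_ASO.HOMR
import Pool.Agent.Helper25_ASO.HFCE
import Pool.Agent.Helper97_ASO.HTA
import Pool.Agent.Helper92_ASO.HTZ
import Pool.Agent.Helper65_ASO.HKB
import Pool.Agent.Helper24_ASO.HRAT
import Pool.Agent.Helper15_ASO.HL12
import Pool.Agent.Helper34_ASO.HFRO
import Pool.Agent.Helper13_ASO.HFPR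
import Pool.Agent.Helper45_ASO.HSM
import Pool.Agent.Helper77_ASO.HCO

/-!
# Squad ASO, block H: the statements, closed
-/

noncomputable section

namespace Pool.Agent.PP.SO

open Pool.Agent.PP Pool.Agent.PP.K9

theorem rtc_ : T3.RtcStmt := T3.H23.rtc K9.ada_ K9.wbo_ KF.H25.idm

theorem hlnk_ : HLnkStmt := H32.hlnk
theorem hixe_ : HIxeStmt := H32.hixe K9.H34.inx
theorem homr_ : HOmrStmt := H63.homr hlnk_ hixe_ K9.H19.omg T3.rsv_
theorem hfce_ : HFceStmt := H25.hfce T3.loc_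
theorem hta_ : HTaStmt := H97.hta T3.psg_ K9.H02.pug K9.dzo_ K9.H3.psi
theorem htz_ : HTzStmt := H92.htz hixe_ hta_ T3.rgl_ T3.cgr_ T3.dgc_ T3.inr_ T3.glp_ T3.co1_
  T3.lpw_ K9.prg_
theorem hkb_ : HKbStmt := H65.hkb hlnk_ hixe_ homr_ T3.rgl_ T3.inr_ T3.glp_ T3.co1_ T3.lpw_
theorem hrat_ : HRatStmt := H24.hrat hlnk_ hixe_ homr_
theorem hl12_ : HL12Stmt := H15.hl12 K9.wbo_ hlnk_ hfce_ homr_ T3.prm_ rtc_
theorem hfro_ : HFroStmt := H34.hfro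
theorem hfpr_ : HFprStmt := H13.hfpr hlnk_ hixe_ T3.smg_ T3.dug_ T3.fus_ T3.loc_
theorem hsm_ : HSmStmt := H45.hsm hkb_ hrat_ hfro_ hfpr_ htz_ hfce_ hixe_
theorem hco_ : HCoStmt := H77.hco htz_ hsm_ hl12_

end Pool.Agent.PP.SO
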